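import Pool.Agent.Helper19_RFK.Stmts

/-!
# APX: the kernel `q_r` is an approximate identity
-/

set_option autoImplicit false

open MeasureTheory Set
open scoped ENNReal Topology

namespace Pool.Agent.RFK.H79

theorem apx (hq : QkpStmt) : ApxStmt := by
  intro L ρ g hg r hr y
  obtain ⟨hq0, hqr, -, hqm, hqi, -⟩ := hq r hr
  have hi : Integrable (fun x => qk r (x - y)) := hqi.comp_sub_right y
  have hN : Nr r = ∫ x, qk r (x - y) := by
    unfold Nr
    exact (integral_sub_right_eq_self (fun w => qk r w) y).symm
  -- the pointwise facts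
  have hae : ∀ᵐ x : ℂ, x ≠ y := by
    have : volume ({y} : Set ℂ) = 0 := measure_singleton y
    exact measure_eq_zero_iff_ae_notMem.mp this
  have hpt : ∀ᵐ x : ℂ, 0 ≤ qk r (x - y) ∧ |qk r (x - y) * (g x - g y)| ≤ qk r (x - y) * (L * r) := by
    filter_upwards [hae] with x hx
    have h0 : 0 ≤ qk r (x - y) := hq0 _ (sub_ne_zero.mpr hx)
    refine ⟨h0, ?_⟩
    rcases le_or_gt r ‖x - y‖ with h | h
    · rw [hqr _ h]; simp
    · rw [abs_mul, abs_of_nonneg h0]
      refine mul_le_mul_of_nonneg_left ?_ h0
      have h1 := hg.lip.dist_le_mul x y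
      rw [Real.dist_eq, dist_eq_norm] at h1
      exact h1.trans (mul_le_mul_of_nonneg_left h.le L.2)
  have hgm : AEStronglyMeasurable g volume := hg.lip.continuous.aestronglyMeasurable
  have hm1 : AEStronglyMeasurable (fun x => qk r (x - y)) volume := hi.1
  have hdi : Integrable (fun x => qk r (x - y) * (g x - g y)) := by
    refine Integrable.mono' (hi.mul_const (L * r)) (hm1.mul (hgm.sub aestronglyMeasurable_const)) ?_
    filter_upwards [hpt] with x hx
    rw [Real.norm_eq_abs]; exact hx.2
  have hgi : Integrable (fun x => qk r (x - y) * g x) := by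
    have := hdi.add (hi.mul_const (g y))
    refine this.congr (Filter.Eventually.of_forall fun x => ?_)
    simp only [Pi.add_apply]
    ring
  have hd : (∫ x, qk r (x - y) * g x) - Nr r * g y = ∫ x, qk r (x - y) * (g x - g y) := by
    rw [hN, ← integral_mul_const, ← integral_sub hgi (hi.mul_const (g y))]
    refine integral_congr_ae (Filter.Eventually.of_forall fun x => ?_)
    simp only
    ring
  rw [hd]
  calc |∫ x, qk r (x - y) * (g x - g y)|
      ≤ ∫ x, qk r (x - y) * (L * r) := by
        rw [← Real.norm_eq_abs]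
        refine norm_integral_le_of_norm_le (hi.mul_const (L * r)) ?_
        filter_upwards [hpt] with x hx
        rw [Real.norm_eq_abs]; exact hx.2
    _ = Nr r * (L * r) := by rw [integral_mul_const, hN]

end Pool.Agent.RFK.H79
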