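import Pool.Agent.Helper19_RFK.Stmts

/-!
# MVI: the mean value identity for logarithmic potentials
-/

set_option autoImplicit false

open MeasureTheory Set Pool.Agent.Helper19_LogPot
open scoped ENNReal Topology

namespace Pool.Agent.RFK.H79

/-- `K (z - ·)` is integrable on bounded sets. -/
lemma integrableOn_K_sub {E : Set ℂ} (hb : Bornology.IsBounded E) (z : ℂ) :
    IntegrableOn (fun y : ℂ => K (z - y)) E := by
  obtain ⟨R, hR⟩ := hb.subset_ball (0 : ℂ)
  set R' := max R (‖z‖ + 1) with hR'
  have hE : E ⊆ Metric.ball (0 : ℂ) R' := hR.trans (Metric.ball_subset_ball (le_max_left _ _))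
  have hz : z ∈ Metric.ball (0 : ℂ) R' := by
    rw [mem_ball_zero_iff]; exact lt_of_lt_of_le (lt_add_one _) (le_max_right _ _)
  refine ⟨(measurable_K.comp (measurable_const.sub measurable_id)).aestronglyMeasurable, ?_⟩
  rw [hasFiniteIntegral_iff_ofReal (Filter.Eventually.of_forall fun y => K_nonneg _)]
  exact lt_of_le_of_lt (lintegral_K_sub_le hE hz) (CK_lt_top _)

lemma abs_log_mul_le (z : ℂ) (a : ℝ) : |Real.log ‖z‖ * a| ≤ (K z + a ^ 2) / 2 := by
  have h1 := log_sq_le_K z
  rw [abs_mul]
  have h2 : |Real.log ‖z‖| ^ 2 = Real.log ‖z‖ ^ 2 := sq_abs _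
  have h3 : |a| ^ 2 = a ^ 2 := sq_abs _
  nlinarith [sq_nonneg (|Real.log ‖z‖| - |a|)]

/-- The integrand of `pot` is integrable. -/
lemma integrable_log_mul {E : Set ℂ} {u : ℂ → ℝ} (hb : Bornology.IsBounded E)
    (hu : MemLp u 2 (volume.restrict E)) (z : ℂ) :
    Integrable (fun y => Real.log ‖z - y‖ * u y) (volume.restrict E) := by
  have h1 : Integrable (fun y => (K (z - y) + u y ^ 2) / 2) (volume.restrict E) :=
    ((integrableOn_K_sub hb z).add hu.integrable_sq).div_const 2
  refine Integrable.mono' h1 ?_ (Filter.Eventually.of_forall fun y => ?_)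
  · exact (Real.measurable_log.comp (by fun_prop : Measurable fun y : ℂ => ‖z - y‖)).aestronglyMeasurable.mul
      hu.1
  · rw [Real.norm_eq_abs]; exact abs_log_mul_le _ _

/-- joint integrability of `K (x + h - y)` -/
lemma integrable_prod_K {E : Set ℂ} (hb : Bornology.IsBounded E) (r : ℝ) (x : ℂ) :
    Integrable (fun p : ℂ × ℂ => K (x + p.1 - p.2))
      ((volume.restrict (Metric.ball (0 : ℂ) r)).prod (volume.restrict E)) := by
  have hm : Measurable (fun p : ℂ × ℂ => K (x + p.1 - p.2)) :=
    measurable_K.comp (by fun_prop)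
  refine ⟨hm.aestronglyMeasurable, ?_⟩
  rw [hasFiniteIntegral_iff_ofReal (Filter.Eventually.of_forall fun y => K_nonneg _)]
  rw [lintegral_prod _ hm.ennreal_ofReal.aemeasurable]
  obtain ⟨R, hR⟩ := hb.subset_ball (0 : ℂ)
  set R' := max R (‖x‖ + r) with hR'
  have hE : E ⊆ Metric.ball (0 : ℂ) R' := hR.trans (Metric.ball_subset_ball (le_max_left _ _))
  have h1 : ∫⁻ h in Metric.ball (0 : ℂ) r, ∫⁻ y in E, ENNReal.ofReal (K (x + h - y))
      ≤ ∫⁻ h in Metric.ball (0 : ℂ) r, CK (2 * R') := by
    refine setLIntegral_mono' Metric.isOpen_ball.measurableSet fun h hh => ?_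
    refine lintegral_K_sub_le hE ?_
    rw [mem_ball_zero_iff] at hh ⊢
    calc ‖x + h‖ ≤ ‖x‖ + ‖h‖ := norm_add_le _ _
      _ < ‖x‖ + r := by linarith
      _ ≤ R' := le_max_right _ _
  refine lt_of_le_of_lt h1 ?_
  rw [setLIntegral_const]
  exact ENNReal.mul_lt_top (CK_lt_top _) measure_ball_lt_top

/-- joint integrability of a function of the second variable -/
lemma integrable_prod_snd {E : Set ℂ} (r : ℝ) {f : ℂ → ℝ}
    (hf : Integrable f (volume.restrict E)) :
    Integrable (fun p : ℂ × ℂ => f p.2)
      ((volume.restrict (Metric.ball (0 : ℂ) r)).prod (volume.restrict E)) := by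
  have : IsFiniteMeasure (volume.restrict (Metric.ball (0 : ℂ) r)) :=
    ⟨by rw [Measure.restrict_apply_univ]; exact measure_ball_lt_top⟩
  exact hf.comp_snd _

theorem mvi : MviStmt := by
  intro E u hE hb hu r hr x
  set B := Metric.ball (0 : ℂ) r with hB
  have hint : Integrable (fun p : ℂ × ℂ => (Real.log ‖x + p.1 - p.2‖ - Real.log ‖x - p.2‖) * u p.2)
      ((volume.restrict B).prod (volume.restrict E)) := by
    have h1 : Integrable (fun p : ℂ × ℂ => (K (x + p.1 - p.2) + u p.2 ^ 2) / 2
        + (K (x - p.2) + u p.2 ^ 2) / 2)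
        ((volume.restrict B).prod (volume.restrict E)) := by
      have hu2 := integrable_prod_snd r hu.integrable_sq
      have hK2 := integrable_prod_snd r (integrableOn_K_sub hb x)
      exact (((integrable_prod_K hb r x).add hu2).div_const 2).add ((hK2.add hu2).div_const 2)
    refine Integrable.mono' h1 ?_ (Filter.Eventually.of_forall fun p => ?_)
    · refine AEStronglyMeasurable.mul ?_ ?_
      · refine Measurable.aestronglyMeasurable ?_
        refine Measurable.sub ?_ ?_
        · exact Real.measurable_log.comp (by fun_prop)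
        · exact Real.measurable_log.comp (by fun_prop)
      · exact hu.1.comp_snd
    · rw [Real.norm_eq_abs, sub_mul]
      refine (abs_sub _ _).trans ?_
      exact add_le_add (abs_log_mul_le _ _) (abs_log_mul_le _ _)
  have h1 : lap r (pot E u) x =
      ∫ h in B, ∫ y in E, (Real.log ‖x + h - y‖ - Real.log ‖x - y‖) * u y := by
    unfold lap
    refine integral_congr_ae (Filter.Eventually.of_forall fun h => ?_)
    simp only [pot]
    rw [← integral_sub (integrable_log_mul hb hu _) (integrable_log_mul hb hu _)]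
    refine integral_congr_ae (Filter.Eventually.of_forall fun y => ?_)
    simp only
    ring
  rw [h1, integral_integral_swap hint]
  refine integral_congr_ae (Filter.Eventually.of_forall fun y => ?_)
  simp only
  rw [integral_mul_const]
  congr 1
  unfold qk
  refine integral_congr_ae (Filter.Eventually.of_forall fun h => ?_)
  simp only
  rw [show x + h - y = x - y + h by ring]

end Pool.Agent.RFK.H79
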